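import Mathlib
import Pool.Agent.H430R3.KST
import Pool.Agent.R795.Min.ES

/-!
# Dense edge-ordered graphs contain the edge-ordered path with the labels 3, 6, 5, 2, 1, 4
-/

set_option autoImplicit false

namespace Pool.Agent.K3h58.EO

open Finset Function SimpleGraph

/-- Erdős and Szekeres for several functions at once -/
theorem mono_many (j : ℕ) : ∀ k : ℕ, ∃ N : ℕ, ∀ {α : Type} (X : Finset α), N ≤ X.card →
    ∀ g : Fin j → α → ℕ, (∀ i, Set.InjOn (g i) X) →
      ∃ x : Fin k → α, Injective x ∧ (∀ a, x a ∈ X) ∧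
        ∀ i, StrictMono (fun a => g i (x a)) ∨ StrictAnti (fun a => g i (x a)) := by
  induction j with
  | zero =>
    intro k
    refine ⟨k, fun {α} X hX g _ => ?_⟩
    obtain ⟨Y, hY, hc⟩ := exists_subset_card_eq hX
    have e := Y.equivFinOfCardEq hc
    exact ⟨fun a => (e.symm a : α), fun a b h => e.symm.injective (Subtype.ext h),
      fun a => hY (e.symm a).2, fun i => i.elim0⟩
  | succ j ih =>
    intro k
    obtain ⟨N, hN⟩ := ih (k * k + 1)
    refine ⟨N, fun {α} X hX g hg => ?_⟩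
    obtain ⟨x, hx1, hx2, hx3⟩ := hN X hX (fun i => g i.castSucc) (fun i => hg _)
    have hinj : Injective (fun a => g (Fin.last j) (x a)) :=
      fun a b h => hx1 (hg _ (hx2 a) (hx2 b) h)
    have main : ∀ t : Finset (Fin (k * k + 1)), k < t.card →
        ∃ e : Fin k → Fin (k * k + 1), StrictMono e ∧ ∀ a, e a ∈ t := by
      intro t ht
      refine ⟨fun a => t.orderEmbOfFin rfl ⟨a, lt_trans a.2 ht⟩, ?_, fun a => ?_⟩
      · intro a b hab
        exact (t.orderEmbOfFin rfl).strictMono (by exact hab)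
      · exact t.orderEmbOfFin_mem rfl _
    have fin : ∀ e : Fin k → Fin (k * k + 1), StrictMono e →
        (StrictMono (fun a => g (Fin.last j) (x (e a))) ∨
          StrictAnti (fun a => g (Fin.last j) (x (e a)))) →
        ∃ x : Fin k → α, Injective x ∧ (∀ a, x a ∈ X) ∧
        ∀ i, StrictMono (fun a => g i (x a)) ∨ StrictAnti (fun a => g i (x a)) := by
      intro e he h
      refine ⟨fun a => x (e a), fun a b hab => he.injective (hx1 hab), fun a => hx2 _, fun i => ?_⟩
      refine Fin.lastCases ?_ (fun i => ?_) i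
      · exact h
      · rcases hx3 i with h1 | h1
        · exact Or.inl (h1.comp he)
        · exact Or.inr (h1.comp_strictMono he)
    rcases Pool.Agent.R795.Min.erdos_szekeres (r := k) (f := fun a => g (Fin.last j) (x a))
      (by simp) hinj with ⟨t, ht, hm⟩ | ⟨t, ht, hm⟩
    · obtain ⟨e, he, het⟩ := main t ht
      exact fin e he (Or.inl fun a b hab => hm (het a) (het b) (he hab))
    · obtain ⟨e, he, het⟩ := main t ht
      exact fin e he (Or.inr fun a b hab => hm (het a) (het b) (he hab))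

/-- a five by five grid which is monotone in both directions -/
theorem grid : ∃ S : ℕ, ∀ {α : Type} (X Y : Finset α) (f : α → α → ℕ),
    S ≤ X.card → S ≤ Y.card →
    (∀ x ∈ X, ∀ y ∈ Y, ∀ x' ∈ X, ∀ y' ∈ Y, f x y = f x' y' → x = x' ∧ y = y') →
    ∃ x y : Fin 5 → α, Injective x ∧ Injective y ∧ (∀ a, x a ∈ X) ∧ (∀ a, y a ∈ Y) ∧
      (∀ a, StrictMono (fun b => f (x a) (y b))) ∧
      (∀ b, StrictMono (fun a => f (x a) (y b))) := by
  classical
  obtain ⟨N, hN⟩ := mono_many 9 5
  obtain ⟨T, hT⟩ : ∃ T : Finset (Fin 9 × Fin 9 → Bool), ∀ p, p ∈ T := ⟨univ, mem_univ⟩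
  refine ⟨T.card * N + 10, fun {α} X Y f hX hY hf => ?_⟩
  obtain ⟨Y0, hY0, hc⟩ := exists_subset_card_eq (s := Y) (n := 9) (by omega)
  have e := Y0.equivFinOfCardEq hc
  let y0 : Fin 9 → α := fun i => (e.symm i : α)
  have hy0 : Injective y0 := fun a b h => e.symm.injective (Subtype.ext h)
  have hy0Y : ∀ i, y0 i ∈ Y := fun i => hY0 (e.symm i).2
  obtain ⟨ty, -, hty⟩ := exists_lt_card_fiber_of_mul_lt_card_of_maps_to (s := X)
    (t := T)
    (f := fun x => fun p => decide (f x (y0 p.1) < f x (y0 p.2))) (n := N)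
    (fun a _ => hT _) (by omega)
  set X1 := X.filter (fun x => (fun p : Fin 9 × Fin 9 => decide (f x (y0 p.1) < f x (y0 p.2))) = ty)
    with hX1
  have hX1X : X1 ⊆ X := filter_subset _ _
  obtain ⟨x0, hx0⟩ : X1.Nonempty := card_pos.1 (by omega)
  let σ := Tuple.sort (fun i => f x0 (y0 i))
  have hσ0 : StrictMono (fun i => f x0 (y0 (σ i))) := by
    have h1 : Monotone (fun i => f x0 (y0 (σ i))) := Tuple.monotone_sort (fun i => f x0 (y0 i))
    refine h1.strictMono_of_injective ?_
    intro a b hab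
    have := (hf x0 (hX1X hx0) _ (hy0Y _) x0 (hX1X hx0) _ (hy0Y _) hab).2
    exact σ.injective (hy0 this)
  have hσ : ∀ x ∈ X1, StrictMono (fun i => f x (y0 (σ i))) := by
    intro x hx a b hab
    have h1 := hσ0 hab
    simp only at h1 ⊢
    have h2 := (mem_filter.1 hx).2
    have h3 := (mem_filter.1 hx0).2
    have h4 := congrFun (h2.trans h3.symm) (σ a, σ b)
    simp only at h4
    rw [decide_eq_decide] at h4
    exact h4.2 h1
  obtain ⟨x, hx1, hx2, hx3⟩ := hN X1 hty.le (fun i x => f x (y0 (σ i))) (by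
    intro i a ha b hb hab
    exact (hf a (hX1X ha) _ (hy0Y _) b (hX1X hb) _ (hy0Y _) hab).1)
  -- signs
  set A := (univ : Finset (Fin 9)).filter (fun i => StrictMono (fun a => f (x a) (y0 (σ i)))) with hA
  have hcard : A.card + ((univ : Finset (Fin 9)).filter
      (fun i => ¬ StrictMono (fun a => f (x a) (y0 (σ i))))).card = 9 := by
    rw [hA, card_filter_add_card_filter_not]
    simp
  have fin : ∀ (B : Finset (Fin 9)) (x' : Fin 5 → α), 5 ≤ B.card → Injective x' →
      (∀ a, x' a ∈ X1) → (∀ i ∈ B, StrictMono (fun a => f (x' a) (y0 (σ i)))) →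
      ∃ x y : Fin 5 → α, Injective x ∧ Injective y ∧ (∀ a, x a ∈ X) ∧ (∀ a, y a ∈ Y) ∧
      (∀ a, StrictMono (fun b => f (x a) (y b))) ∧
      (∀ b, StrictMono (fun a => f (x a) (y b))) := by
    intro B x' hB hi hm hs
    let em : Fin 5 → Fin 9 := fun a => B.orderEmbOfFin rfl ⟨a, lt_of_lt_of_le a.2 hB⟩
    have hem : StrictMono em := by
      intro a b hab
      exact (B.orderEmbOfFin rfl).strictMono (by exact hab)
    have hemB : ∀ a, em a ∈ B := fun a => B.orderEmbOfFin_mem rfl _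
    refine ⟨x', fun b => y0 (σ (em b)), hi, ?_, fun a => hX1X (hm a), fun a => hy0Y _, ?_, ?_⟩
    · intro a b hab
      exact hem.injective (σ.injective (hy0 hab))
    · intro a b c hbc
      exact hσ _ (hm a) (hem hbc)
    · intro b
      exact hs _ (hemB b)
  rcases le_or_gt 5 A.card with h5 | h5
  · exact fin A x h5 hx1 hx2 fun i hi => (mem_filter.1 hi).2
  · refine fin _ (fun a => x (Fin.rev a)) (by omega : 5 ≤ ((univ : Finset (Fin 9)).filter
      (fun i => ¬ StrictMono (fun a => f (x a) (y0 (σ i))))).card)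
      (fun a b h => Fin.rev_injective (hx1 h)) (fun a => hx2 _) ?_
    intro i hi
    have h1 := (mem_filter.1 hi).2
    rcases hx3 i with h2 | h2
    · exact absurd h2 h1
    · intro a b hab
      exact h2 (Fin.rev_lt_rev.2 hab)

/-- the labels of the edges `i, i + 1` of the path -/
def lab : Fin 7 → ℕ := ![3, 6, 5, 2, 1, 4, 0]

/-- the labelling of the path -/
def L7 : Sym2 (Fin 7) → ℕ :=
  Sym2.lift ⟨fun a b => lab (min a b), fun a b => by simp only [min_comm]⟩

theorem edge_form {e : Sym2 (Fin 7)} (he : e ∈ (pathGraph 7).edgeSet) :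
    ∃ i : Fin 6, e = s(i.castSucc, i.succ) := by
  induction e with
  | _ a b =>
    rw [mem_edgeSet, pathGraph_adj] at he
    rcases he with h | h
    · refine ⟨⟨a.val, by omega⟩, ?_⟩
      have h1 : (⟨a.val, by omega⟩ : Fin 6).castSucc = a := Fin.ext rfl
      have h2 : (⟨a.val, by omega⟩ : Fin 6).succ = b := Fin.ext (by simpa using h)
      rw [h1, h2]
    · refine ⟨⟨b.val, by omega⟩, ?_⟩
      have h1 : (⟨b.val, by omega⟩ : Fin 6).castSucc = b := Fin.ext rfl
      have h2 : (⟨b.val, by omega⟩ : Fin 6).succ = a := Fin.ext (by simpa using h)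
      rw [h1, h2, Sym2.eq_swap]

theorem L7_edge (i : Fin 6) : L7 s(i.castSucc, i.succ) = lab i.castSucc := by
  unfold L7
  rw [Sym2.lift_mk]
  simp only
  rw [min_eq_left]
  exact Fin.castSucc_lt_succ.le

theorem lab_inj : ∀ i j : Fin 6, lab i.castSucc = lab j.castSucc → i = j := by decide

theorem L7_injOn : Set.InjOn L7 (pathGraph 7).edgeSet := by
  intro e he f hf h
  obtain ⟨i, rfl⟩ := edge_form he
  obtain ⟨j, rfl⟩ := edge_form hf
  rw [L7_edge, L7_edge] at h
  rw [lab_inj i j h]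

/-- paths have no cycles -/
theorem path_acyclic (n : ℕ) : (pathGraph n).IsAcyclic := by
  rw [isAcyclic_iff_forall_adj_isBridge]
  have main : ∀ ⦃v w : Fin n⦄, v.val + 1 = w.val → (pathGraph n).IsBridge s(v, w) := by
    intro v w hvw
    rw [isBridge_iff]
    rintro ⟨p⟩
    have inv : ∀ {x y : Fin n} (q : ((pathGraph n).deleteEdges {s(v, w)}).Walk x y),
        x.val ≤ v.val → y.val ≤ v.val := by
      intro x y q
      induction q with
      | nil => exact id
      | @cons a b c h q ih =>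
        intro ha
        apply ih
        rw [deleteEdges_adj, pathGraph_adj] at h
        obtain ⟨h1, h2⟩ := h
        rcases h1 with h1 | h1
        · by_contra hlt
          apply h2
          have e1 : a = v := Fin.ext (by omega)
          have e2 : b = w := Fin.ext (by omega)
          rw [e1, e2]
          exact Set.mem_singleton _
        · omega
    have := inv p le_rfl
    omega
  intro v w hvw
  rw [pathGraph_adj] at hvw
  rcases hvw with h | h
  · exact main h
  · rw [Sym2.eq_swap]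
    exact main h

/-- `G` with the labels `M` contains the path -/
def HasPath {n : ℕ} (G : SimpleGraph (Fin n)) (M : Sym2 (Fin n) → ℕ) : Prop :=
  ∃ φ : Fin 7 ↪ Fin n, (∀ a b, (pathGraph 7).Adj a b → G.Adj (φ a) (φ b)) ∧
    ∀ e ∈ (pathGraph 7).edgeSet, ∀ f ∈ (pathGraph 7).edgeSet, L7 e < L7 f →
      M (Sym2.map (⇑φ) e) < M (Sym2.map (⇑φ) f)

theorem hasPath_of {n : ℕ} {G : SimpleGraph (Fin n)} {M : Sym2 (Fin n) → ℕ} (v : Fin 7 → Fin n)
    (hv : Injective v) (hadj : ∀ i : Fin 6, G.Adj (v i.castSucc) (v i.succ))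
    (h1 : M s(v 4, v 5) < M s(v 3, v 4)) (h2 : M s(v 3, v 4) < M s(v 0, v 1))
    (h3 : M s(v 0, v 1) < M s(v 5, v 6)) (h4 : M s(v 5, v 6) < M s(v 2, v 3))
    (h5 : M s(v 2, v 3) < M s(v 1, v 2)) : HasPath G M := by
  refine ⟨⟨v, hv⟩, ?_, ?_⟩
  · intro a b hab
    have h := (mem_edgeSet (pathGraph 7)).2 hab
    obtain ⟨i, hi⟩ := edge_form h
    simp only [Embedding.coeFn_mk]
    rw [Sym2.eq_iff] at hi
    rcases hi with ⟨rfl, rfl⟩ | ⟨rfl, rfl⟩
    · exact hadj i
    · exact (hadj i).symm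
  · intro e he f hf hL
    obtain ⟨i, rfl⟩ := edge_form he
    obtain ⟨j, rfl⟩ := edge_form hf
    rw [L7_edge, L7_edge] at hL
    simp only [Sym2.map_mk, Embedding.coeFn_mk]
    fin_cases i <;> fin_cases j <;> simp [lab] at hL ⊢ <;> omega

theorem of_grid {n : ℕ} {G : SimpleGraph (Fin n)} {M : Sym2 (Fin n) → ℕ}
    (x y : Fin 5 → Fin n) (hx : Injective x) (hy : Injective y)
    (hadj : ∀ a b, G.Adj (x a) (y b))
    (h1 : ∀ a, StrictMono (fun b => M s(x a, y b)))
    (h2 : ∀ b, StrictMono (fun a => M s(x a, y b)))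
    (h3 : M s(x 1, y 3) < M s(x 3, y 1)) : HasPath G M := by
  have hne : ∀ a b, x a ≠ y b := fun a b => (hadj a b).ne
  -- c1, c2, c3, c4 = x 0, x 1, x 3, x 4 and r1, r2, r3 = y 1, y 2, y 3
  -- the path is c2 r3 c4 r2 c1 r1 c3
  refine hasPath_of ![x 1, y 3, x 4, y 2, x 0, y 1, x 3] ?_ ?_ ?_ ?_ ?_ ?_ ?_
  · have hxx : ∀ a b, a ≠ b → x a ≠ x b := fun a b h h' => h (hx h')
    have hyy : ∀ a b, a ≠ b → y a ≠ y b := fun a b h h' => h (hy h')
    intro a b hab
    fin_cases a <;> fin_cases b <;> first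
      | rfl
      | (exfalso; simp at hab; first
          | exact hne _ _ hab
          | exact hne _ _ hab.symm
          | exact absurd (hx hab) (by decide)
          | exact absurd (hy hab) (by decide))
  · intro i
    fin_cases i
    · exact hadj 1 3
    · exact (hadj 4 3).symm
    · exact hadj 4 2
    · exact (hadj 0 2).symm
    · exact hadj 0 1
    · exact (hadj 3 1).symm
  · -- M (c1 r1) < M (c1 r2)
    show M s(x 0, y 1) < M s(y 2, x 0)
    rw [Sym2.eq_swap (a := y 2)]
    exact h1 0 (by decide : (1 : Fin 5) < 2)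
  · show M s(y 2, x 0) < M s(x 1, y 3)
    rw [Sym2.eq_swap (a := y 2)]
    exact (h1 0 (by decide : (2 : Fin 5) < 3)).trans (h2 3 (by decide : (0 : Fin 5) < 1))
  · show M s(x 1, y 3) < M s(y 1, x 3)
    rw [Sym2.eq_swap (a := y 1)]
    exact h3
  · show M s(y 1, x 3) < M s(x 4, y 2)
    rw [Sym2.eq_swap (a := y 1)]
    exact (h1 3 (by decide : (1 : Fin 5) < 2)).trans (h2 2 (by decide : (3 : Fin 5) < 4))
  · show M s(x 4, y 2) < M s(y 3, x 4)
    rw [Sym2.eq_swap (a := y 3)]
    exact h1 4 (by decide : (2 : Fin 5) < 3)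

theorem dense {n : ℕ} {G : SimpleGraph (Fin n)} {M : Sym2 (Fin n) → ℕ}
    (hM : Set.InjOn M G.edgeSet) (x y : Fin 5 → Fin n) (hx : Injective x) (hy : Injective y)
    (hadj : ∀ a b, G.Adj (x a) (y b))
    (h1 : ∀ a, StrictMono (fun b => M s(x a, y b)))
    (h2 : ∀ b, StrictMono (fun a => M s(x a, y b))) : HasPath G M := by
  rcases lt_trichotomy (M s(x 1, y 3)) (M s(x 3, y 1)) with h | h | h
  · exact of_grid x y hx hy hadj h1 h2 h
  · exfalso
    have := hM ((mem_edgeSet G).2 (hadj _ _)) ((mem_edgeSet G).2 (hadj _ _)) h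
    rw [Sym2.eq_iff] at this
    rcases this with ⟨h3, -⟩ | ⟨h3, -⟩
    · exact absurd (hx h3) (by decide)
    · exact (hadj _ _).ne h3
  · refine of_grid y x hy hx (fun a b => (hadj b a).symm) ?_ ?_ ?_
    · intro a b c hbc
      simp only
      rw [Sym2.eq_swap, Sym2.eq_swap (a := y a)]
      exact h2 a hbc
    · intro a b c hbc
      simp only
      rw [Sym2.eq_swap, Sym2.eq_swap (a := y c)]
      exact h1 a hbc
    · rw [Sym2.eq_swap, Sym2.eq_swap (a := y 3)]
      exact h

/-- **dense graphs contain the path** -/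
theorem upper : ∀ ε : ℝ, 0 < ε → ∃ N : ℕ, ∀ n : ℕ, N ≤ n →
    ∀ (G : SimpleGraph (Fin n)) (M : Sym2 (Fin n) → ℕ), Set.InjOn M G.edgeSet →
      ¬ HasPath G M → (G.edgeSet.ncard : ℝ) ≤ ε * (n : ℝ) ^ 2 := by
  classical
  intro ε hε
  obtain ⟨S, hS⟩ := grid
  obtain ⟨q, hq⟩ := exists_nat_gt (1 / ε)
  have hq0 : (0 : ℝ) < q := lt_trans (by positivity) hq
  have hq1 : 1 ≤ q := by
    have : 0 < q := by exact_mod_cast hq0
    omega
  obtain ⟨R0, hR0⟩ := Pool.Agent.H430R3.weak_kst (S + 1) q (by omega) hq1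
  refine ⟨R0 + 1, fun n hn G M hM hno => ?_⟩
  by_contra hcon
  push Not at hcon
  apply hno
  have hn0 : (0 : ℝ) < n := by
    have : 0 < n := by omega
    exact_mod_cast this
  have hdeg : ∑ x : Fin n, (univ.filter fun y => G.Adj x y).card = 2 * G.edgeFinset.card := by
    rw [← G.sum_degrees_eq_twice_card_edges]
    refine sum_congr rfl fun x _ => ?_
    rw [← card_neighborFinset_eq_degree]
    congr 1
    ext y
    simp
  have hE : G.edgeSet.ncard = G.edgeFinset.card := by
    rw [← coe_edgeFinset, Set.ncard_coe_finset]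
  rw [hE] at hcon
  have hlt : n * n < q * ∑ x : Fin n, (univ.filter fun y => G.Adj x y).card := by
    rw [hdeg]
    have h1 : (n : ℝ) * n < q * G.edgeFinset.card := by
      have h2 : 1 < q * ε := by
        rw [div_lt_iff₀ hε] at hq
        exact hq
      calc (n : ℝ) * n = 1 * (n : ℝ) ^ 2 := by ring
        _ < q * ε * (n : ℝ) ^ 2 := mul_lt_mul_of_pos_right h2 (by positivity)
        _ = q * (ε * (n : ℝ) ^ 2) := by ring
        _ < q * G.edgeFinset.card := mul_lt_mul_of_pos_left hcon hq0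
    have h3 : n * n < q * G.edgeFinset.card := by exact_mod_cast h1
    calc n * n < q * G.edgeFinset.card := h3
      _ ≤ q * (2 * G.edgeFinset.card) := Nat.mul_le_mul_left _ (by omega)
  obtain ⟨X, -, Y, -, hX, hY, hr⟩ := hR0 (univ : Finset (Fin n)) (univ : Finset (Fin n))
    (fun x y => G.Adj x y) n (by omega) (by simp) (by simp) (by convert hlt)
  obtain ⟨x, y, hx, hy, hxX, hyY, h1, h2⟩ := hS X Y (fun a b => M s(a, b)) (by omega) (by omega) (by
    intro a ha b hb a' ha' b' hb' h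
    have := hM ((mem_edgeSet G).2 (hr a ha b hb)) ((mem_edgeSet G).2 (hr a' ha' b' hb')) h
    rw [Sym2.eq_iff] at this
    rcases this with h3 | ⟨h3, h4⟩
    · exact h3
    · exfalso
      exact (hr _ ha' _ hb).ne h4.symm)
  exact dense hM x y hx hy (fun a b => hr _ (hxX a) _ (hyY b)) h1 h2

end Pool.Agent.K3h58.EO
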