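import Mathlib
import Pool.Agent.K3h58.EO.Upper

/-!
# Edge-ordered graphs without the path with the labels 3, 6, 5, 2, 1, 4

The vertices are the lines `t ↦ ρ + t s`, `ρ ∈ {0, …, m - 1} ^ b`, `s ∈ {0, 1} ^ b`, and the points
`(c, t)` of the space-time; a line is joined to its points at the times `1, …, τ`. The edges are
ordered by the line (lexicographically, first by `ρ`), and the edges of one line by the time.
-/

set_option autoImplicit false

namespace Pool.Agent.K3h58.EO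

open Finset Function SimpleGraph

/-- lines: position at the time `0` and direction -/
abbrev Line (b m : ℕ) : Type := (Fin b → Fin m) × (Fin b → Bool)

/-- points: position and time (the time `t` stands for `t + 1`) -/
abbrev Pt (b m τ : ℕ) : Type := (Fin b → Fin (m + τ)) × Fin τ

/-- the vertices -/
abbrev Vt (b m τ : ℕ) : Type := Line b m ⊕ Pt b m τ

variable {b m τ : ℕ}

/-- the point of a line at a time -/
def pt (l : Line b m) (t : Fin τ) : Pt b m τ :=
  (fun i => ⟨(l.1 i).val + (if l.2 i = true then t.val + 1 else 0), by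
    have h1 := (l.1 i).2
    have h2 := t.2
    split_ifs <;> omega⟩, t)

theorem pt_snd (l : Line b m) (t : Fin τ) : (pt l t).2 = t := rfl

theorem pt_coord {l l' : Line b m} {t t' : Fin τ} (h : pt l t = pt l' t') (i : Fin b) :
    t = t' ∧ (l.1 i).val + (if l.2 i = true then t.val + 1 else 0) =
      (l'.1 i).val + (if l'.2 i = true then t'.val + 1 else 0) := by
  refine ⟨congrArg Prod.snd h, ?_⟩
  have h1 := congrArg (fun p : Pt b m τ => (p.1 i).val) h
  exact h1

/-- the ordered type of the lines -/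
abbrev LL (b m : ℕ) : Type := Lex (Lex (Fin b → Fin m) × Lex (Fin b → Bool))

/-- a line in the order -/
def lk (l : Line b m) : LL b m := toLex (toLex l.1, toLex l.2)

theorem lk_inj {l l' : Line b m} (h : lk l = lk l') : l = l' := by
  have h1 := congrArg (fun x : LL b m => ofLex (ofLex x).1) h
  have h2 := congrArg (fun x : LL b m => ofLex (ofLex x).2) h
  exact Prod.ext h1 h2

theorem lk_le {l l' : Line b m} (h : lk l ≤ lk l') : toLex l.1 ≤ toLex l'.1 := by
  rw [lk, lk, Prod.Lex.le_iff] at h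
  rcases h with h | h
  · exact h.le
  · exact h.1.le

/-- the ordered type of the edges -/
abbrev EE (b m τ : ℕ) : Type := Lex (LL b m × Fin τ)

/-- an edge in the order -/
def ek (l : Line b m) (t : Fin τ) : EE b m τ := toLex (lk l, t)

open Classical in
/-- the position of an edge -/
noncomputable def key (l : Line b m) (t : Fin τ) : ℕ :=
  ((univ : Finset (Line b m × Fin τ)).filter (fun x => ek x.1 x.2 < ek l t)).card

theorem key_lt {l l' : Line b m} {t t' : Fin τ} (h : ek l t < ek l' t') : key l t < key l' t' := by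
  classical
  unfold key
  apply card_lt_card
  rw [ssubset_iff_of_subset]
  · refine ⟨(l, t), ?_, ?_⟩
    · simpa using h
    · simp
  · intro x hx
    rw [mem_filter] at hx ⊢
    exact ⟨hx.1, hx.2.trans h⟩

theorem key_lt_iff {l l' : Line b m} {t t' : Fin τ} :
    key l t < key l' t' ↔ ek l t < ek l' t' := by
  refine ⟨fun h => ?_, key_lt⟩
  rcases lt_trichotomy (ek l t) (ek l' t') with h1 | h1 | h1
  · exact h1
  · exfalso
    have : key l t = key l' t' := by unfold key; rw [h1]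
    omega
  · have := key_lt h1
    omega

theorem key_line {l l' : Line b m} {t t' : Fin τ} (h : key l t < key l' t') : lk l ≤ lk l' := by
  rw [key_lt_iff, ek, ek, Prod.Lex.lt_iff] at h
  rcases h with h | h
  · exact h.le
  · exact h.1.le

theorem key_time {l : Line b m} {t t' : Fin τ} (h : key l t < key l t') : t < t' := by
  rw [key_lt_iff, ek, ek, Prod.Lex.lt_iff] at h
  rcases h with h | h
  · exact absurd h (lt_irrefl _)
  · exact h.2

theorem key_inj {l l' : Line b m} {t t' : Fin τ} (h : key l t = key l' t') : l = l' ∧ t = t' := by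
  have h1 : ek l t = ek l' t' := by
    rcases lt_trichotomy (ek l t) (ek l' t') with h1 | h1 | h1
    · have := key_lt h1
      omega
    · exact h1
    · have := key_lt h1
      omega
  have h2 := congrArg (fun x : EE b m τ => (ofLex x).1) h1
  have h3 := congrArg (fun x : EE b m τ => (ofLex x).2) h1
  exact ⟨lk_inj h2, h3⟩

/-- sandwiching in the lexicographic order -/
theorem lex_sand {a x c : Fin b → Fin m} (h1 : toLex a ≤ toLex x) (h2 : toLex x ≤ toLex c)
    {q : Fin b} (hq : ∀ i < q, a i = c i) :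
    (∀ i < q, x i = a i) ∧ a q ≤ x q ∧ x q ≤ c q := by
  have main : ∀ u v : Fin b → Fin m, toLex u ≤ toLex v → u = v ∨
      ∃ i, (∀ j < i, u j = v j) ∧ u i < v i := by
    intro u v h
    rcases h.lt_or_eq with h | h
    · right
      exact h
    · left
      exact congrArg ofLex h
  rcases main a x h1 with rfl | ⟨i, hi1, hi2⟩
  · refine ⟨fun i _ => rfl, le_rfl, ?_⟩
    rcases main a c h2 with rfl | ⟨j, hj1, hj2⟩
    · exact le_rfl
    · rcases lt_trichotomy j q with h | h | h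
      · exact absurd (hq j h) hj2.ne
      · subst h; exact hj2.le
      · exact (hj1 q h).le
  · rcases main x c h2 with rfl | ⟨j, hj1, hj2⟩
    · have hiq : q ≤ i := by
        by_contra hcon
        exact absurd (hq i (not_le.1 hcon)) hi2.ne
      refine ⟨fun k hk => (hi1 k (lt_of_lt_of_le hk hiq)).symm, ?_, le_rfl⟩
      rcases hiq.lt_or_eq with h | h
      · exact (hi1 q h).le
      · subst h; exact hi2.le
    · have hiq : q ≤ i := by
        by_contra hcon
        have hcon := not_le.1 hcon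
        rcases lt_trichotomy j i with h | h | h
        · have := hq j (h.trans hcon)
          rw [hi1 j h] at this
          exact absurd this hj2.ne
        · subst h
          exact absurd (hq j hcon) (hi2.trans hj2).ne
        · have := hq i hcon
          rw [← hj1 i h] at this
          exact absurd this hi2.ne
      have hjq : q ≤ j := by
        by_contra hcon
        have hcon := not_le.1 hcon
        have h3 := hq j hcon
        rw [hi1 j (lt_of_lt_of_le hcon hiq)] at h3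
        exact absurd h3 hj2.ne
      refine ⟨fun k hk => (hi1 k (lt_of_lt_of_le hk hiq)).symm, ?_, ?_⟩
      · rcases hiq.lt_or_eq with h | h
        · exact (hi1 q h).le
        · subst h; exact hi2.le
      · rcases hjq.lt_or_eq with h | h
        · exact (hj1 q h).le
        · subst h; exact hj2.le

/-- **the geometric core** -/
theorem core {l1 l2 l3 l4 : Line b m} {t1 t2 t3 : Fin τ} (hne : l1 ≠ l4)
    (hp1 : pt l1 t1 = pt l3 t1) (hp2 : pt l1 t2 = pt l4 t2) (hp3 : pt l2 t3 = pt l4 t3)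
    (h12 : t1 < t2) (h23 : t2 < t3)
    (o1 : toLex l1.1 ≤ toLex l2.1) (o2 : toLex l2.1 ≤ toLex l3.1) (o3 : toLex l3.1 ≤ toLex l4.1) :
    False := by
  have hρ : l1.1 ≠ l4.1 := by
    intro h
    apply hne
    refine Prod.ext h ?_
    funext i
    have h1 := (pt_coord hp2 i).2
    rw [h] at h1
    by_cases ha : l1.2 i = true <;> by_cases hb : l4.2 i = true
    · rw [ha, hb]
    · rw [if_pos ha, if_neg hb] at h1; omega
    · rw [if_neg ha, if_pos hb] at h1; omega
    · rw [Bool.not_eq_true] at ha hb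
      rw [ha, hb]
  obtain ⟨q, hq1, hq2⟩ : ∃ q, (∀ i < q, l1.1 i = l4.1 i) ∧ l1.1 q < l4.1 q := by
    have h := (o1.trans o2).trans o3
    rcases h.lt_or_eq with h | h
    · exact h
    · exact absurd (congrArg ofLex h) hρ
  obtain ⟨-, s1, s2⟩ := lex_sand o1 (o2.trans o3) hq1
  obtain ⟨-, s3, s4⟩ := lex_sand (o1.trans o2) o3 hq1
  have s5 : l2.1 q ≤ l3.1 q := by
    obtain ⟨e1, -, -⟩ := lex_sand o1 (o2.trans o3) hq1
    exact (lex_sand (q := q) o2 o3 (fun i hi => (e1 i hi).trans (hq1 i hi))).2.1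
  have e1 := (pt_coord hp1 q).2
  have e2 := (pt_coord hp2 q).2
  have e3 := (pt_coord hp3 q).2
  have v12 : t1.val < t2.val := h12
  have v23 : t2.val < t3.val := h23
  have w1 : (l1.1 q).val < (l4.1 q).val := hq2
  have w2 : (l1.1 q).val ≤ (l2.1 q).val := s1
  have w3 : (l2.1 q).val ≤ (l3.1 q).val := s5
  have w4 : (l3.1 q).val ≤ (l4.1 q).val := s4
  split_ifs at e1 e2 e3 <;> omega

/-- the weight of a pair of vertices -/
noncomputable def mu : Vt b m τ → Vt b m τ → ℕ
  | .inl l, .inr p => key l p.2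
  | .inr p, .inl l => key l p.2
  | _, _ => 0

theorem mu_symm (u v : Vt b m τ) : mu u v = mu v u := by
  rcases u with l | p <;> rcases v with l' | p' <;> rfl

/-- the incidence graph -/
def H (b m τ : ℕ) : SimpleGraph (Vt b m τ) :=
  SimpleGraph.fromRel (fun u v => ∃ l t, u = Sum.inl l ∧ v = Sum.inr (pt l t))

theorem H_inl {l : Line b m} {v : Vt b m τ} (h : (H b m τ).Adj (Sum.inl l) v) :
    ∃ t, v = Sum.inr (pt l t) := by
  rw [H, SimpleGraph.fromRel_adj] at h
  rcases h.2 with ⟨l', t, h1, h2⟩ | ⟨l', t, h1, h2⟩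
  · obtain rfl := Sum.inl_injective h1
    exact ⟨t, h2⟩
  · exact absurd h2 Sum.inl_ne_inr

theorem H_inr {p : Pt b m τ} {v : Vt b m τ} (h : (H b m τ).Adj (Sum.inr p) v) :
    ∃ l t, v = Sum.inl l ∧ p = pt l t := by
  rw [H, SimpleGraph.fromRel_adj] at h
  rcases h.2 with ⟨l', t, h1, h2⟩ | ⟨l', t, h1, h2⟩
  · exact absurd h1 Sum.inr_ne_inl
  · exact ⟨l', t, h1, Sum.inr_injective h2⟩

theorem H_adj (l : Line b m) (t : Fin τ) : (H b m τ).Adj (Sum.inl l) (Sum.inr (pt l t)) := by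
  rw [H, SimpleGraph.fromRel_adj]
  exact ⟨Sum.inl_ne_inr, Or.inl ⟨l, t, rfl, rfl⟩⟩

/-- the path does not occur -/
theorem no_path (w : Fin 7 → Vt b m τ) (hw : Injective w)
    (a0 : (H b m τ).Adj (w 0) (w 1)) (a1 : (H b m τ).Adj (w 1) (w 2))
    (a2 : (H b m τ).Adj (w 2) (w 3)) (a3 : (H b m τ).Adj (w 3) (w 4))
    (a4 : (H b m τ).Adj (w 4) (w 5)) (a5 : (H b m τ).Adj (w 5) (w 6))
    (m1 : mu (w 4) (w 5) < mu (w 3) (w 4)) (m2 : mu (w 3) (w 4) < mu (w 0) (w 1))
    (m3 : mu (w 0) (w 1) < mu (w 5) (w 6)) (m4 : mu (w 5) (w 6) < mu (w 2) (w 3))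
    (m5 : mu (w 2) (w 3) < mu (w 1) (w 2)) : False := by
  rcases hw0 : w 0 with l2 | c2
  · rw [hw0] at a0 m2 m3
    obtain ⟨t3, hw1⟩ := H_inl a0
    rw [hw1] at a1 m2 m3 m5
    obtain ⟨l4, t3', hw2, hp3⟩ := H_inr a1
    rw [hw2] at a2 m4 m5
    obtain ⟨t2, hw3⟩ := H_inl a2
    rw [hw3] at a3 m1 m2 m4 m5
    obtain ⟨l1, t2', hw4, hp2⟩ := H_inr a3
    rw [hw4] at a4 m1 m2
    obtain ⟨t1, hw5⟩ := H_inl a4
    rw [hw5] at a5 m1 m3 m4
    obtain ⟨l3, t1', hw6, hp1⟩ := H_inr a5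
    rw [hw6] at m3 m4
    obtain rfl : t3 = t3' := congrArg Prod.snd hp3
    obtain rfl : t2 = t2' := congrArg Prod.snd hp2
    obtain rfl : t1 = t1' := congrArg Prod.snd hp1
    change key l1 t1 < key l1 t2 at m1
    change key l1 t2 < key l2 t3 at m2
    change key l2 t3 < key l3 t1 at m3
    change key l3 t1 < key l4 t2 at m4
    change key l4 t2 < key l4 t3 at m5
    refine core (l1 := l1) (l4 := l4) ?_ hp1 hp2.symm hp3 (key_time m1) (key_time m5)
      (lk_le (key_line m2)) (lk_le (key_line m3)) (lk_le (key_line m4))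
    rintro rfl
    exact absurd (hw (hw4.trans hw2.symm)) (by decide)
  · rw [hw0] at a0 m2 m3
    obtain ⟨r3, -, hw1, -⟩ := H_inr a0
    rw [hw1] at a1 m2 m3 m5
    obtain ⟨t, hw2⟩ := H_inl a1
    rw [hw2] at a2 m4 m5
    obtain ⟨r2, -, hw3, -⟩ := H_inr a2
    rw [hw3] at a3 m1 m2 m4 m5
    obtain ⟨t', hw4⟩ := H_inl a3
    rw [hw4] at a4 m1 m2
    obtain ⟨r1, -, hw5, -⟩ := H_inr a4
    rw [hw5] at a5 m1 m3 m4
    obtain ⟨t'', hw6⟩ := H_inl a5
    rw [hw6] at m3 m4
    change key r1 _ < key r2 _ at m1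
    change key r2 _ < key r3 _ at m2
    change key r3 _ < key r1 _ at m3
    have h1 := key_line m1
    have h2 := key_line m2
    have h3 := key_line m3
    have h4 : lk r1 = lk r2 := le_antisymm h1 (h2.trans h3)
    have h5 := lk_inj h4
    subst h5
    exact absurd (hw (hw3.trans hw5.symm)) (by decide)

/-- the labelling of the incidence graph -/
noncomputable def MM (b m τ : ℕ) : Sym2 (Vt b m τ) → ℕ :=
  Sym2.lift ⟨mu, mu_symm⟩

theorem MM_edge (u v : Vt b m τ) : MM b m τ s(u, v) = mu u v := rfl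

theorem edge_cases {z : Sym2 (Vt b m τ)} (hz : z ∈ (H b m τ).edgeSet) :
    ∃ l t, z = s(Sum.inl l, Sum.inr (pt l t)) := by
  induction z with
  | _ u v =>
    rw [mem_edgeSet] at hz
    rcases u with l | p
    · obtain ⟨t, rfl⟩ := H_inl hz
      exact ⟨l, t, rfl⟩
    · obtain ⟨l, t, rfl, rfl⟩ := H_inr hz
      exact ⟨l, t, Sym2.eq_swap⟩

/-- the graph as a graph on `Fin n` -/
theorem exists_graph (b m τ : ℕ) : ∃ (G : SimpleGraph (Fin (Fintype.card (Vt b m τ))))
    (M : Sym2 (Fin (Fintype.card (Vt b m τ))) → ℕ), Set.InjOn M G.edgeSet ∧ ¬ HasPath G M ∧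
      Fintype.card (Line b m × Fin τ) ≤ G.edgeSet.ncard := by
  obtain e := Fintype.equivFin (Vt b m τ)
  refine ⟨(H b m τ).comap e.symm, fun z => MM b m τ (Sym2.map e.symm z), ?_, ?_, ?_⟩
  · intro z hz z' hz' h
    have hmem : ∀ z ∈ ((H b m τ).comap e.symm).edgeSet, Sym2.map e.symm z ∈ (H b m τ).edgeSet := by
      intro z hz
      induction z with
      | _ u v =>
        rw [mem_edgeSet, comap_adj] at hz
        rw [Sym2.map_mk, mem_edgeSet]
        exact hz
    obtain ⟨l, t, h1⟩ := edge_cases (hmem z hz)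
    obtain ⟨l', t', h2⟩ := edge_cases (hmem z' hz')
    simp only [h1, h2, MM_edge] at h
    obtain ⟨rfl, rfl⟩ := key_inj (t := t) (t' := t') h
    exact Sym2.map.injective e.symm.injective (h1.trans h2.symm)
  · rintro ⟨φ, hφ1, hφ2⟩
    have hadj : ∀ i : Fin 6, (H b m τ).Adj (e.symm (φ i.castSucc)) (e.symm (φ i.succ)) := by
      intro i
      refine hφ1 _ _ ?_
      rw [pathGraph_adj]
      left
      simp
    have hlt : ∀ i j : Fin 6, lab i.castSucc < lab j.castSucc →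
        mu (e.symm (φ i.castSucc)) (e.symm (φ i.succ)) <
          mu (e.symm (φ j.castSucc)) (e.symm (φ j.succ)) := by
      intro i j hij
      have hmem : ∀ i : Fin 6, s(i.castSucc, i.succ) ∈ (pathGraph 7).edgeSet := by
        intro i
        rw [mem_edgeSet, pathGraph_adj]
        left
        simp
      have := hφ2 _ (hmem i) _ (hmem j) (by rw [L7_edge, L7_edge]; exact hij)
      simpa only [Sym2.map_mk, MM_edge] using this
    refine no_path (fun i => e.symm (φ i)) (fun i j h => φ.injective (e.symm.injective h))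
      (hadj 0) (hadj 1) (hadj 2) (hadj 3) (hadj 4) (hadj 5) ?_ ?_ ?_ ?_ ?_
    · exact hlt 4 3 (by decide)
    · exact hlt 3 0 (by decide)
    · exact hlt 0 5 (by decide)
    · exact hlt 5 2 (by decide)
    · exact hlt 2 1 (by decide)
  · let f : Line b m × Fin τ → Sym2 (Fin (Fintype.card (Vt b m τ))) :=
      fun x => s(e (Sum.inl x.1), e (Sum.inr (pt x.1 x.2)))
    have hf : Injective f := by
      rintro ⟨l, t⟩ ⟨l', t'⟩ h
      simp only [f] at h
      rw [Sym2.eq_iff] at h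
      rcases h with ⟨h1, h2⟩ | ⟨h1, h2⟩
      · have h3 := Sum.inl_injective (e.injective h1)
        have h4 := Sum.inr_injective (e.injective h2)
        have h5 : t = t' := congrArg (fun p : Pt b m τ => p.2) h4
        exact Prod.ext h3 h5
      · exact absurd (e.injective h1) Sum.inl_ne_inr
    calc Fintype.card (Line b m × Fin τ) = (Set.range f).ncard := by
          rw [← Set.image_univ, Set.ncard_image_of_injective _ hf, Set.ncard_univ,
            Nat.card_eq_fintype_card]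
      _ ≤ ((H b m τ).comap e.symm).edgeSet.ncard := by
          refine Set.ncard_le_ncard ?_ (Set.toFinite _)
          rintro _ ⟨⟨l, t⟩, rfl⟩
          simp only [f]
          rw [mem_edgeSet, comap_adj, e.symm_apply_apply, e.symm_apply_apply]
          exact H_adj l t

theorem card_vt (b m τ : ℕ) : Fintype.card (Vt b m τ) = m ^ b * 2 ^ b + (m + τ) ^ b * τ := by
  simp [Fintype.card_sum, Fintype.card_prod]

theorem card_edges (b m τ : ℕ) : Fintype.card (Line b m × Fin τ) = m ^ b * 2 ^ b * τ := by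
  simp [Fintype.card_prod]

theorem pow_succ_le (b : ℕ) (hb : 1 ≤ b) : ((b : ℝ) + 1) ^ b ≤ 3 * (b : ℝ) ^ b := by
  have hb0 : (0 : ℝ) < b := by exact_mod_cast hb
  have h1 : (b : ℝ) + 1 ≤ b * Real.exp (1 / b) := by
    have h2 := Real.add_one_le_exp (1 / (b : ℝ))
    calc (b : ℝ) + 1 = b * (1 / b + 1) := by field_simp; ring
      _ ≤ b * Real.exp (1 / b) := mul_le_mul_of_nonneg_left h2 hb0.le
  calc ((b : ℝ) + 1) ^ b ≤ (b * Real.exp (1 / b)) ^ b := pow_le_pow_left₀ (by positivity) h1 b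
    _ = (b : ℝ) ^ b * Real.exp 1 := by
        rw [mul_pow, ← Real.exp_nat_mul]
        congr 2
        field_simp
    _ ≤ (b : ℝ) ^ b * 3 := by
        refine mul_le_mul_of_nonneg_left ?_ (by positivity)
        have := Real.exp_one_lt_d9
        linarith
    _ = 3 * (b : ℝ) ^ b := by ring

/-- **the lower bound**: the number of edges is at least `2 ^ b / 4` times the number `n` of the
vertices, with `log n ≤ 5 b ^ 2` -/
theorem lower (b : ℕ) (hb : 1 ≤ b) : ∃ n : ℕ, 2 ≤ n ∧ Real.log n ≤ 5 * (b : ℝ) ^ 2 ∧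
    ∃ (G : SimpleGraph (Fin n)) (M : Sym2 (Fin n) → ℕ), Set.InjOn M G.edgeSet ∧
      ¬ HasPath G M ∧ (n : ℝ) * (2 : ℝ) ^ b ≤ 4 * (G.edgeSet.ncard : ℝ) := by
  obtain ⟨G, M, h1, h2, h3⟩ := exists_graph b (b * 2 ^ b) (2 ^ b)
  have hb0 : (0 : ℝ) < b := by exact_mod_cast hb
  have hb1 : (1 : ℝ) ≤ b := by exact_mod_cast hb
  have hN := card_vt b (b * 2 ^ b) (2 ^ b)
  rw [card_edges] at h3
  obtain ⟨n, hn⟩ : ∃ n, n = Fintype.card (Vt b (b * 2 ^ b) (2 ^ b)) := ⟨_, rfl⟩
  rw [← hn] at hN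
  have hT : (0 : ℝ) < (2 : ℝ) ^ b := by positivity
  have hNR : (n : ℝ) ≤ 4 * (((b : ℝ) * 2 ^ b) ^ b * 2 ^ b) := by
    have e1 : (n : ℝ) = ((b : ℝ) * 2 ^ b) ^ b * 2 ^ b + ((b : ℝ) * 2 ^ b + 2 ^ b) ^ b * 2 ^ b := by
      rw [hN]; push_cast; ring
    have e2 : ((b : ℝ) * 2 ^ b + 2 ^ b) ^ b = ((b : ℝ) + 1) ^ b * (2 ^ b) ^ b := by
      rw [← mul_pow]; congr 1; ring
    have e3 := pow_succ_le b hb
    rw [e1, e2]
    have e4 : ((b : ℝ) + 1) ^ b * (2 ^ b) ^ b * 2 ^ b ≤ 3 * (b : ℝ) ^ b * (2 ^ b) ^ b * 2 ^ b := by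
      gcongr
    calc ((b : ℝ) * 2 ^ b) ^ b * 2 ^ b + ((b : ℝ) + 1) ^ b * (2 ^ b) ^ b * 2 ^ b
        ≤ ((b : ℝ) * 2 ^ b) ^ b * 2 ^ b + 3 * (b : ℝ) ^ b * (2 ^ b) ^ b * 2 ^ b := by linarith
      _ = 4 * (((b : ℝ) * 2 ^ b) ^ b * 2 ^ b) := by rw [mul_pow]; ring
  have hn2 : 2 ≤ n := by
    rw [hN]
    have p1 : 1 ≤ 2 ^ b := Nat.one_le_two_pow
    have p2 : 1 ≤ b * 2 ^ b := Nat.mul_pos hb p1
    have q1 : 1 ≤ (b * 2 ^ b) ^ b * 2 ^ b := Nat.mul_pos (Nat.pow_pos p2) p1
    have q2 : 1 ≤ (b * 2 ^ b + 2 ^ b) ^ b * 2 ^ b := Nat.mul_pos (Nat.pow_pos (by omega)) p1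
    omega
  have hn0 : (0 : ℝ) < n := by
    have : 0 < n := by omega
    exact_mod_cast this
  have key : ∃ (G : SimpleGraph (Fin n)) (M : Sym2 (Fin n) → ℕ), Set.InjOn M G.edgeSet ∧
      ¬ HasPath G M ∧ (b * 2 ^ b) ^ b * 2 ^ b * 2 ^ b ≤ G.edgeSet.ncard := by
    rw [hn]
    exact ⟨G, M, h1, h2, h3⟩
  obtain ⟨G, M, h1, h2, h3⟩ := key
  refine ⟨n, hn2, ?_, G, M, h1, h2, ?_⟩
  · have hb2 : (b : ℝ) ≤ 2 ^ b := by
      have := (Nat.lt_two_pow_self (n := b)).le
      exact_mod_cast this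
    have e5 : (n : ℝ) ≤ 2 ^ (2 + (2 * b * b + b)) := by
      calc (n : ℝ) ≤ 4 * (((b : ℝ) * 2 ^ b) ^ b * 2 ^ b) := hNR
        _ ≤ 4 * (((2 : ℝ) ^ b * 2 ^ b) ^ b * 2 ^ b) := by gcongr
        _ = 2 ^ (2 + (2 * b * b + b)) := by
            rw [← pow_add, ← pow_mul, ← pow_add, pow_add _ 2]
            congr 1
            · norm_num
            · congr 1; ring
    calc Real.log n ≤ Real.log (2 ^ (2 + (2 * b * b + b))) := Real.log_le_log hn0 e5
      _ = ((2 + (2 * b * b + b) : ℕ) : ℝ) * Real.log 2 := by rw [Real.log_pow]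
      _ ≤ ((2 + (2 * b * b + b) : ℕ) : ℝ) * 1 := by
          refine mul_le_mul_of_nonneg_left ?_ (Nat.cast_nonneg _)
          have := Real.log_two_lt_d9
          linarith
      _ ≤ 5 * (b : ℝ) ^ 2 := by
          push_cast
          nlinarith
  · have h4 : ((b : ℝ) * 2 ^ b) ^ b * 2 ^ b * 2 ^ b ≤ (G.edgeSet.ncard : ℝ) := by
      exact_mod_cast h3
    calc (n : ℝ) * (2 : ℝ) ^ b ≤ 4 * (((b : ℝ) * 2 ^ b) ^ b * 2 ^ b) * 2 ^ b :=
          mul_le_mul_of_nonneg_right hNR hT.le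
      _ = 4 * (((b : ℝ) * 2 ^ b) ^ b * 2 ^ b * 2 ^ b) := by ring
      _ ≤ 4 * (G.edgeSet.ncard : ℝ) := by linarith

/-- no polylogarithmic bound -/
theorem not_polylog : ¬ ∃ (c : ℕ) (C : ℝ), ∀ n : ℕ, 2 ≤ n →
    ∀ (G : SimpleGraph (Fin n)) (M : Sym2 (Fin n) → ℕ), Set.InjOn M G.edgeSet →
      ¬ HasPath G M → (G.edgeSet.ncard : ℝ) ≤ C * (n : ℝ) * (Real.log (n : ℝ)) ^ c := by
  rintro ⟨c, C, h⟩
  have main : ∀ b : ℕ, 1 ≤ b → (2 : ℝ) ^ b ≤ 4 * |C| * 5 ^ c * (b : ℝ) ^ (2 * c) := by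
    intro b hb
    obtain ⟨n, h2, hlog, G, M, g1, g2, g3⟩ := lower b hb
    have hn0 : (0 : ℝ) < n := by
      have : 0 < n := by omega
      exact_mod_cast this
    have h4 := h n h2 G M g1 g2
    have hl0 : 0 ≤ Real.log n := Real.log_nonneg (by
      have : 1 ≤ n := by omega
      exact_mod_cast this)
    have h5 : (Real.log n) ^ c ≤ (5 * (b : ℝ) ^ 2) ^ c := pow_le_pow_left₀ hl0 hlog c
    have h6 : C * (n : ℝ) * (Real.log (n : ℝ)) ^ c ≤ |C| * n * (5 * (b : ℝ) ^ 2) ^ c := by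
      have h7 : C * (n : ℝ) ≤ |C| * n := mul_le_mul_of_nonneg_right (le_abs_self C) hn0.le
      calc C * (n : ℝ) * (Real.log (n : ℝ)) ^ c ≤ |C| * n * (Real.log (n : ℝ)) ^ c :=
            mul_le_mul_of_nonneg_right h7 (pow_nonneg hl0 c)
        _ ≤ |C| * n * (5 * (b : ℝ) ^ 2) ^ c :=
            mul_le_mul_of_nonneg_left h5 (mul_nonneg (abs_nonneg C) hn0.le)
    have h8 : (n : ℝ) * (2 : ℝ) ^ b ≤ n * (4 * |C| * 5 ^ c * (b : ℝ) ^ (2 * c)) := by
      calc (n : ℝ) * (2 : ℝ) ^ b ≤ 4 * (G.edgeSet.ncard : ℝ) := g3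
        _ ≤ 4 * (|C| * n * (5 * (b : ℝ) ^ 2) ^ c) := by linarith
        _ = n * (4 * |C| * 5 ^ c * (b : ℝ) ^ (2 * c)) := by
            rw [mul_pow, ← pow_mul]; ring
    exact le_of_mul_le_mul_left h8 hn0
  have hlim := tendsto_pow_const_div_const_pow_of_one_lt (2 * c) (one_lt_two : (1 : ℝ) < 2)
  have hD : 0 < 1 / (4 * |C| * 5 ^ c + 1) := by positivity
  have hev := hlim.eventually (gt_mem_nhds hD)
  obtain ⟨b, hb1, hb2⟩ := (hev.and (Filter.eventually_ge_atTop 1)).exists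
  have h9 := main b hb2
  have hT : (0 : ℝ) < (2 : ℝ) ^ b := by positivity
  rw [div_lt_div_iff₀ hT (by positivity)] at hb1
  have hp : 0 ≤ (b : ℝ) ^ (2 * c) := by positivity
  nlinarith

end Pool.Agent.K3h58.EO
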